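import Pool.Agent.Q258.MT.AsmAll
import Pool.Agent.Q258.MT.Alg11

set_option autoImplicit false

/-!
The monotone triangle polynomial at the reversed row `2n+1, 2n, ..., 2, 1`.
-/

namespace Pool.Agent.Results.MP_cbdfa9_co.ReversedRow

open Pool.Agent.Q258.MT

/-- The sequence `2, 4, ..., 2 (n + 1)` (positions counted from `0`). -/
def evens (n : ℕ) : Fin (n + 1) → ℤ := fun q => 2 * ((q : ℕ) + 1)

/-- The reversed sequence `n + 1, n, ..., 2, 1` of length `n + 1` (positions counted from `0`). -/
def reversed (n : ℕ) : Fin (n + 1) → ℤ := fun q => (n : ℤ) + 1 - (q : ℕ)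

theorem evl_getElem (k : ℕ) : ∀ (j i : ℕ) (hi : i < (evl j k).length), (evl j k)[i] = 2 * ((j : ℤ) + i + 1) := by
  induction k with
  | zero => intro j i hi; simp [evl] at hi
  | succ k ih =>
    intro j i hi
    cases i with
    | zero => simp [evl]
    | succ i =>
      simp only [evl, List.getElem_cons_succ]
      rw [ih (j + 1) i (by simpa [evl] using hi)]
      push_cast; ring

theorem Rw_getElem (n : ℕ) : ∀ (i : ℕ) (hi : i < (Rw n).length), (Rw n)[i] = (n : ℤ) - i := by
  induction n with
  | zero => intro i hi; simp [Rw] at hi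
  | succ n ih =>
    intro i hi
    cases i with
    | zero => simp [Rw]
    | succ i =>
      simp only [Rw, List.getElem_cons_succ]
      rw [ih i (by simpa [Rw] using hi)]
      push_cast; ring

theorem ofFn_evens (n : ℕ) : List.ofFn (evens n) = evl 0 (n + 1) := by
  apply ofFn_eq_of_getElem
  · intro q hq
    rw [evl_getElem]
    simp only [evens]
    push_cast; ring
  · rw [evl_length]

theorem ofFn_reversed (n : ℕ) : List.ofFn (reversed n) = Rw (n + 1) := by
  apply ofFn_eq_of_getElem
  · intro q hq
    rw [Rw_getElem]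
    simp only [reversed]
    push_cast; ring
  · rw [Rw_length]

theorem evens_mono (n : ℕ) : StrictMono (evens n) := by
  intro a b hab
  have : (a : ℕ) < (b : ℕ) := hab
  simp only [evens]
  omega

/-- **The value at the reversed row.** For every `n` there is exactly one monotone triangle
polynomial in `n + 1` variables. For all `n ≥ 1` the value of the monotone triangle polynomial in
`2 n + 1` variables at `2n+1, 2n, ..., 2, 1` is `(-1)^n` times the value of the monotone triangle polynomial
in `n` variables at `2, 4, ..., 2n`, the number of monotone triangles with this bottom row.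
(In the statement `n` is replaced by `n + 1`.) -/
theorem result :
    (∀ n : ℕ, ∃! p : MvPolynomial (Fin (n + 1)) ℚ, IsMTPoly n p) ∧
    ∀ (n : ℕ) (p : MvPolynomial (Fin (n + 1)) ℚ) (q : MvPolynomial (Fin (2 * (n + 1) + 1)) ℚ),
      IsMTPoly n p → IsMTPoly (2 * (n + 1)) q →
        MvPolynomial.eval (fun i => (reversed (2 * (n + 1)) i : ℚ)) q =
          (-1) ^ (n + 1) * MvPolynomial.eval (fun i => (evens n i : ℚ)) p ∧
        MvPolynomial.eval (fun i => (evens n i : ℚ)) p = mtCount n (evens n) := by
  refine ⟨existsUnique_mtPoly, fun n p q hp hq => ⟨?_, hp _ (evens_mono n)⟩⟩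
  rw [hp.eval_eq, hq.eval_eq, ofFn_evens, ofFn_reversed]
  exact al_Rw (n + 1)

end Pool.Agent.Results.MP_cbdfa9_co.ReversedRow
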